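import Mathlib

namespace Pool.Agent.Results.MP_bada7b_pr.ThreeState

open Matrix Finset
open scoped Classical

variable {Ω : Type} [Fintype Ω] [DecidableEq Ω]

/-- the heat semigroup `exp (-t (I - P))` -/
noncomputable def H (P : Matrix Ω Ω ℝ) (t : ℝ) : Matrix Ω Ω ℝ := NormedSpace.exp ((-t) • (1 - P))

/-- the Dirichlet form `⟨(I - P) f, g⟩_π` -/
noncomputable def dirichlet (P : Matrix Ω Ω ℝ) (π f g : Ω → ℝ) : ℝ :=
  ∑ x, π x * ((1 - P) *ᵥ f) x * g x

/-- entropy of `f` -/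
noncomputable def ent (π f : Ω → ℝ) : ℝ :=
  ∑ x, π x * (f x * Real.log (f x)) - (∑ x, π x * f x) * Real.log (∑ x, π x * f x)

/-- relative entropy -/
noncomputable def KL (μ π : Ω → ℝ) : ℝ := ∑ x, μ x * Real.log (μ x / π x)

/-- the chain killed on leaving `A` -/
noncomputable def killed (P : Matrix Ω Ω ℝ) (A : Finset Ω) : Matrix Ω Ω ℝ :=
  Matrix.of fun x y => if x ∈ A ∧ y ∈ A then P x y else 0

/-- probability of staying in `A` up to time `t`, from `x` -/
noncomputable def surv (P : Matrix Ω Ω ℝ) (A : Finset Ω) (x : Ω) (t : ℝ) : ℝ :=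
  ∑ y ∈ A, H (killed P A) t x y

theorem hs (A : Matrix Ω Ω ℝ) (v : Ω → ℝ) (x : Ω) :
    HasSum (fun n : ℕ => ((n.factorial : ℝ)⁻¹) * (A ^ n *ᵥ v) x) ((NormedSpace.exp A *ᵥ v) x) := by
  have h1 : HasSum (fun n : ℕ => ((n.factorial : ℝ)⁻¹) • A ^ n) (NormedSpace.exp A) := by
    letI : NormedRing (Matrix Ω Ω ℝ) := Matrix.linftyOpNormedRing
    letI : NormedAlgebra ℝ (Matrix Ω Ω ℝ) := Matrix.linftyOpNormedAlgebra
    exact NormedSpace.exp_series_hasSum_exp' (𝕂 := ℝ) A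
  have h2 := h1.map (AddMonoidHom.mk' (fun M : Matrix Ω Ω ℝ => (M *ᵥ v) x)
      fun M N => by simp [add_mulVec])
    ((continuous_apply x).comp (Continuous.matrix_mulVec continuous_id continuous_const))
  have e : (fun n : ℕ => ((n.factorial : ℝ)⁻¹) * (A ^ n *ᵥ v) x) =
      (fun M : Matrix Ω Ω ℝ => (M *ᵥ v) x) ∘ fun n : ℕ => ((n.factorial : ℝ)⁻¹) • A ^ n := by
    funext n
    simp [smul_mulVec]
  rw [e]
  exact h2

theorem hs_exp (s : ℝ) : HasSum (fun n : ℕ => ((n.factorial : ℝ)⁻¹) * s ^ n) (Real.exp s) := by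
  rw [Real.exp_eq_exp_ℝ]
  simpa using NormedSpace.exp_series_hasSum_exp' (𝕂 := ℝ) s

theorem bound (Q : Matrix Ω Ω ℝ) (g : Ω → ℝ) (x : Ω) (l a k t : ℝ) (ht : 0 ≤ t)
    (h : ∀ n : ℕ, (Q ^ n *ᵥ g) x ≤ l ^ n * a + k) :
    (H Q t *ᵥ g) x ≤ Real.exp (-(t * (1 - l))) * a + k := by
  have e : (-t) • (1 - Q) = (-t) • (1 : Matrix Ω Ω ℝ) + t • Q := by
    rw [smul_sub, neg_smul t Q, sub_neg_eq_add]
  have h1 : ∀ v : Ω → ℝ, (NormedSpace.exp ((-t) • (1 : Matrix Ω Ω ℝ)) *ᵥ v) x =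
      Real.exp (-t) * v x := by
    intro v
    refine (hs _ v x).unique ?_
    simp only [smul_pow, one_pow, smul_mulVec, one_mulVec, Pi.smul_apply, smul_eq_mul, ← mul_assoc]
    exact (hs_exp (-t)).mul_right (v x)
  unfold H
  rw [e, Matrix.exp_add_of_commute _ _ ((Commute.one_left _).smul_left _), ← mulVec_mulVec, h1]
  have h2 : (NormedSpace.exp (t • Q) *ᵥ g) x ≤ Real.exp (t * l) * a + Real.exp t * k := by
    refine hasSum_le (fun n => ?_) (hs _ g x)
      (((hs_exp (t * l)).mul_right a).add ((hs_exp t).mul_right k))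
    rw [smul_pow, smul_mulVec, Pi.smul_apply, smul_eq_mul, mul_pow]
    have h3 : 0 ≤ ((n.factorial : ℝ)⁻¹) * t ^ n := by positivity
    have := mul_le_mul_of_nonneg_left (h n) h3
    linarith
  have h3 := mul_le_mul_of_nonneg_left h2 (Real.exp_pos (-t)).le
  rw [mul_add, ← mul_assoc, ← mul_assoc, ← Real.exp_add, ← Real.exp_add, neg_add_cancel,
    Real.exp_zero, one_mul] at h3
  rw [show -(t * (1 - l)) = -t + t * l by ring]
  exact h3

theorem iter (Q : Matrix Ω Ω ℝ) (hQ : ∀ x y, 0 ≤ Q x y) (hr : ∀ x, ∑ y, Q x y ≤ 1)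
    (f g : Ω → ℝ) (l k : ℝ) (hl : 0 ≤ l) (hl1 : l ≤ 1) (hk : 0 ≤ k) (hf : ∀ x, f x ≤ g x + k)
    (hg : ∀ x, (Q *ᵥ g) x ≤ l * g x) (n : ℕ) : ∀ x, (Q ^ n *ᵥ f) x ≤ l ^ n * g x + k := by
  induction n with
  | zero => intro x; simpa using hf x
  | succ n ih =>
    intro x
    rw [pow_succ', ← mulVec_mulVec]
    have h1 : (Q *ᵥ (Q ^ n *ᵥ f)) x ≤ ∑ y, (l ^ n * (Q x y * g y) + k * Q x y) :=
      Finset.sum_le_sum fun y _ => by
        have := mul_le_mul_of_nonneg_left (ih y) (hQ x y)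
        linarith
    rw [Finset.sum_add_distrib, ← Finset.mul_sum, ← Finset.mul_sum] at h1
    have h2 := mul_le_mul_of_nonneg_left (hg x) (pow_nonneg hl n)
    have h3 := mul_le_mul_of_nonneg_left (hr x) hk
    have h4 : (Q *ᵥ g) x = ∑ y, Q x y * g y := rfl
    rw [pow_succ]
    rw [h4] at h2
    linarith

theorem super (Q : Matrix Ω Ω ℝ) (hQ : ∀ x y, 0 ≤ Q x y) (hr : ∀ x, ∑ y, Q x y ≤ 1)
    (f g : Ω → ℝ) (l k t : ℝ) (ht : 0 ≤ t) (hl : 0 ≤ l) (hl1 : l ≤ 1) (hk : 0 ≤ k)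
    (hf : ∀ x, f x ≤ g x + k) (hg : ∀ x, (Q *ᵥ g) x ≤ l * g x) (x : Ω) :
    (H Q t *ᵥ f) x ≤ Real.exp (-(t * (1 - l))) * g x + k :=
  bound Q f x l _ k t ht fun n => iter Q hQ hr f g l k hl hl1 hk hf hg n x

theorem H_mem (Q : Matrix Ω Ω ℝ) (hQ : ∀ x y, 0 ≤ Q x y) (hr : ∀ x, ∑ y, Q x y ≤ 1)
    (t : ℝ) (ht : 0 ≤ t) (x y : Ω) : 0 ≤ H Q t x y ∧ H Q t x y ≤ 1 := by
  have h1 := super Q hQ hr (Pi.single y 1) 0 0 1 t ht le_rfl zero_le_one zero_le_one
    (fun z => by rw [Pi.single_apply]; split_ifs <;> simp) (by simp) x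
  have h2 := super Q hQ hr (-Pi.single y 1) 0 0 0 t ht le_rfl zero_le_one le_rfl
    (fun z => by rw [Pi.neg_apply, Pi.single_apply]; split_ifs <;> simp) (by simp) x
  simp only [mulVec_neg, mulVec_single_one, Pi.neg_apply, col_apply, Pi.zero_apply, mul_zero,
    zero_add, add_zero] at h1 h2
  exact ⟨by linarith, h1⟩

noncomputable def P (ε : ℝ) : Matrix (Fin 3) (Fin 3) ℝ :=
  !![1 - ε, ε, 0; 1 / 2, 0, 1 / 2; 0, 1 / 2, 1 / 2]

theorem mul_log_le (m p : ℝ) (hm : 0 ≤ m) (hm1 : m ≤ 1) (hp : 0 < p) :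
    m * Real.log (m / p) ≤ m * (-Real.log p) := by
  rcases hm.eq_or_lt with rfl | h
  · simp
  · refine mul_le_mul_of_nonneg_left ?_ hm
    rw [Real.log_div h.ne' hp.ne']
    linarith [Real.log_nonpos hm hm1]

theorem result (Cent C : ℝ) (hCent : 0 < Cent) :
    ∃ (P : Matrix (Fin 3) (Fin 3) ℝ) (π : Fin 3 → ℝ),
      (∀ x y, 0 ≤ P x y) ∧ (∀ x, ∑ y, P x y = 1) ∧ (∀ x y, ∃ n : ℕ, 0 < (P ^ n) x y) ∧
      (∀ x, 0 < π x) ∧ ∑ x, π x = 1 ∧ (∀ x y, π x * P x y = π y * P y x) ∧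
      ∃ (T : ℝ) (f : Fin 3 → ℝ), 0 < T ∧ (∃ x y, f x ≠ f y) ∧
        (∀ x, KL (fun y => H P T x y) π ≤ 1 / 2) ∧
        (∀ (x : Fin 3) (A : Finset (Fin 3)), ∑ y ∈ A, π y ≤ 1 / 2 →
          surv P A x T ≤ min (Cent / |Real.log (∑ y ∈ A, π y)|) (99 / 100)) ∧
        0 < ent π (fun x => Real.exp (f x)) ∧
        C * T * (dirichlet P π (fun x => Real.exp (f x)) f / ent π (fun x => Real.exp (f x))) < 1 := by
  obtain ⟨K, hK1, hK⟩ : ∃ K : ℝ, 3 ≤ K ∧ 3 / 2 * Real.exp (-K) ≤ Cent := by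
    refine ⟨3 + 2 / Cent, by have : 0 < 2 / Cent := by positivity
                             linarith, ?_⟩
    have h1 := Real.add_one_le_exp (3 + 2 / Cent)
    rw [Real.exp_neg, ← div_eq_mul_inv, div_le_iff₀ (Real.exp_pos _)]
    have h2 : Cent * (2 / Cent) = 2 := by field_simp
    nlinarith
  have hK2 : Real.exp (-K) ≤ 1 / 8 := by
    have h1 := Real.quadratic_le_exp_of_nonneg (show 0 ≤ K by linarith)
    rw [Real.exp_neg, inv_le_comm₀ (Real.exp_pos _) (by norm_num)]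
    nlinarith
  obtain ⟨L, hL1, hL2, hL3⟩ : ∃ L : ℝ, K ≤ L ∧ 100 ≤ L ∧ 200 * |C| ≤ L :=
    ⟨K + 100 + 200 * |C|, by linarith [abs_nonneg C], by linarith [abs_nonneg C], by linarith⟩
  obtain ⟨M, hM⟩ : ∃ M, M = Real.exp L := ⟨_, rfl⟩
  obtain ⟨δ, hδ⟩ : ∃ δ, δ = Real.exp (-M) := ⟨_, rfl⟩
  have hM3 : L ^ 3 / 6 ≤ M := by
    have := Real.pow_div_factorial_le_exp L (by linarith) 3
    rw [hM]; simpa [Nat.factorial] using this
  have hML : L + 1 ≤ M := hM ▸ Real.add_one_le_exp L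
  have hM0 : 0 < M := by linarith
  have hδ0 : 0 < δ := hδ ▸ Real.exp_pos _
  have hδe : δ * Real.exp M = 1 := by rw [hδ, ← Real.exp_add]; simp
  have hδM : δ * M ≤ 1 / 50 := by
    have h1 := Real.quadratic_le_exp_of_nonneg hM0.le
    have h2 : δ * (M ^ 2 / 2) ≤ 1 := by nlinarith
    nlinarith [mul_pos hδ0 hM0]
  have hδ1 : δ ≤ 1 / 5000 := by nlinarith
  have hlog : Real.log δ = -M := by rw [hδ, Real.log_exp]
  have hπ0 : 0 < 1 - 2 * δ := by linarith
  obtain ⟨ε, hε⟩ : ∃ ε, ε = δ / (2 * (1 - 2 * δ)) := ⟨_, rfl⟩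
  have hεe : (1 - 2 * δ) * ε = δ / 2 := by rw [hε]; field_simp
  have hε0 : 0 < ε := by rw [hε]; positivity
  have hεδ : ε ≤ δ := by nlinarith
  have hP : ∀ x y, 0 ≤ P ε x y := by
    intro x y
    fin_cases x <;> fin_cases y <;> simp [P] <;> linarith
  have hr : ∀ x, ∑ y, P ε x y = 1 := by
    intro x
    fin_cases x <;> simp [P, Fin.sum_univ_three] <;> norm_num
  have hT : 0 < 6 * (L + K) := by linarith
  have hexp : Real.exp (-(6 * (L + K) * (1 - 5 / 6))) = Real.exp (-K) / M := by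
    rw [hM, ← Real.exp_sub]; congr 1; ring
  refine ⟨P ε, ![1 - 2 * δ, δ, δ], hP, hr, ?_, ?_, ?_, ?_, 6 * (L + K), ![0, M - L, M], hT,
    ⟨0, 2, by simpa using hM0.ne⟩, ?_, ?_, ?_⟩
  · intro x y
    refine ⟨2, ?_⟩
    have : ε < 1 / 2 := by linarith
    fin_cases x <;> fin_cases y <;> simp [P, pow_two, Matrix.mul_apply, Fin.sum_univ_three] <;>
      nlinarith
  · intro x
    fin_cases x <;> simp <;> linarith
  · simp [Fin.sum_univ_three]; ring
  · intro x y
    fin_cases x <;> fin_cases y <;> simp [P] <;> linarith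
  · intro x
    have hm := fun y => H_mem (P ε) hP (fun x => (hr x).le) _ hT.le x y
    have h1 := super (P ε) hP (fun x => (hr x).le) ![0, 1, 1] ![-6 * ε, 1 - 6 * ε, 3 / 2 - 6 * ε]
      (5 / 6) (6 * ε) _ hT.le (by norm_num) (by norm_num) (by linarith)
      (by intro z; fin_cases z <;> simp; linarith)
      (by intro z; fin_cases z <;> simp [P, mulVec, dotProduct, Fin.sum_univ_three] <;> nlinarith) x
    rw [hexp] at h1
    have h2 : (![-6 * ε, 1 - 6 * ε, 3 / 2 - 6 * ε] : Fin 3 → ℝ) x ≤ 3 / 2 := by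
      fin_cases x <;> simp <;> linarith
    have h3 := mul_le_mul_of_nonneg_left h2 (show 0 ≤ Real.exp (-K) / M by positivity)
    simp only [mulVec, dotProduct, Fin.sum_univ_three, cons_val_zero, cons_val_one, cons_val_two,
      Nat.succ_eq_add_one, Nat.reduceAdd, tail_cons, head_cons, mul_zero, mul_one, zero_add] at h1
    have h4 := mul_le_mul_of_nonneg_left (h1.trans (add_le_add_left h3 _)) hM0.le
    have h5 : M * (Real.exp (-K) / M * (3 / 2) + 6 * ε) = Real.exp (-K) * (3 / 2) + 6 * ε * M := by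
      field_simp
    have a0 := mul_log_le _ _ (hm 0).1 (hm 0).2 hπ0
    have a1 := mul_log_le _ _ (hm 1).1 (hm 1).2 hδ0
    have a2 := mul_log_le _ _ (hm 2).1 (hm 2).2 hδ0
    rw [hlog] at a1 a2
    have b0 : -Real.log (1 - 2 * δ) ≤ 1 / 100 := by
      have := Real.one_sub_inv_le_log_of_pos hπ0
      have h6 : (1 - 2 * δ)⁻¹ ≤ 101 / 100 := by
        rw [inv_le_comm₀ hπ0 (by norm_num)]; linarith
      linarith
    have b1 : H (P ε) (6 * (L + K)) x 0 * (-Real.log (1 - 2 * δ)) ≤ 1 / 100 := by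
      have := (hm 0).1
      have := (hm 0).2
      nlinarith
    have b2 : ε * M ≤ 1 / 50 := by nlinarith
    simp only [KL, Fin.sum_univ_three, cons_val_zero, cons_val_one, cons_val_two,
      Nat.succ_eq_add_one, Nat.reduceAdd, tail_cons, head_cons]
    nlinarith
  · intro x A hA
    rcases A.eq_empty_or_nonempty with rfl | ⟨z, hz⟩
    · simp [surv]; norm_num
    have hπ : ∀ y, 0 ≤ (![1 - 2 * δ, δ, δ] : Fin 3 → ℝ) y := by
      intro y; fin_cases y <;> simp <;> linarith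
    have h0 : (0 : Fin 3) ∉ A := fun h => by
      have := Finset.single_le_sum (fun y _ => hπ y) h
      simp only [cons_val_zero] at this
      linarith
    have hlow : δ ≤ ∑ y ∈ A, (![1 - 2 * δ, δ, δ] : Fin 3 → ℝ) y := by
      refine le_trans ?_ (Finset.single_le_sum (fun y _ => hπ y) hz)
      fin_cases z <;> simp; linarith
    have hQ : ∀ x y, 0 ≤ killed (P ε) A x y ∧ killed (P ε) A x y ≤ P ε x y := by
      intro x y
      simp only [killed, of_apply]
      split_ifs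
      · exact ⟨hP x y, le_rfl⟩
      · exact ⟨le_rfl, hP x y⟩
    have h1 := super (killed (P ε) A) (fun x y => (hQ x y).1)
      (fun x => (Finset.sum_le_sum fun y _ => (hQ x y).2).trans (hr x).le)
      (fun y => if y ∈ A then 1 else 0) ![0, 1, 3 / 2] (5 / 6) 0 _ hT.le (by norm_num) (by norm_num)
      le_rfl (by
        intro y
        split_ifs with h
        · fin_cases y
          · exact absurd h h0
          · simp
          · simp; norm_num
        · fin_cases y <;> simp; norm_num) (by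
        intro y
        have q1 := (hQ y 1).2
        have q2 := (hQ y 2).2
        fin_cases y
        · simp [killed, mulVec, dotProduct, Fin.sum_univ_three, h0]
        · simp [P, mulVec, dotProduct, Fin.sum_univ_three] at q1 q2 ⊢; linarith
        · simp [P, mulVec, dotProduct, Fin.sum_univ_three] at q1 q2 ⊢; linarith) x
    rw [hexp] at h1
    have h2 : (![0, 1, 3 / 2] : Fin 3 → ℝ) x ≤ 3 / 2 := by
      fin_cases x <;> simp <;> norm_num
    have h3 := mul_le_mul_of_nonneg_left h2 (show 0 ≤ Real.exp (-K) / M by positivity)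
    have h4 : surv (P ε) A x (6 * (L + K)) ≤ Real.exp (-K) / M * (3 / 2) := by
      refine le_trans (le_of_eq ?_) (h1.trans (by linarith))
      simp [surv, mulVec, dotProduct]
    refine le_min (h4.trans ?_) (h4.trans ?_)
    · have l1 := Real.log_le_log hδ0 hlow
      have l2 := Real.log_neg (hδ0.trans_le hlow) (by linarith)
      rw [abs_of_neg l2, le_div_iff₀ (by linarith)]
      calc _ ≤ Real.exp (-K) / M * (3 / 2) * M := by gcongr; linarith
        _ = 3 / 2 * Real.exp (-K) := by field_simp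
        _ ≤ _ := hK
    · have : Real.exp (-K) / M ≤ 1 / 8 := by
        rw [div_le_iff₀ hM0]; nlinarith
      linarith
  · have e1 : δ * Real.exp (M - L) = 1 / M := by
      rw [Real.exp_sub, ← hM, ← mul_div_assoc, hδe]
    have hMi : 1 / M ≤ 1 := by rw [div_le_one hM0]; linarith
    have hMi0 : 0 < 1 / M := by positivity
    have hE : M - 6 ≤ ent ![1 - 2 * δ, δ, δ] (fun x => Real.exp (![0, M - L, M] x)) := by
      simp only [ent, Fin.sum_univ_three, cons_val_zero, cons_val_one, cons_val_two,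
        Nat.succ_eq_add_one, Nat.reduceAdd, tail_cons, head_cons, Real.log_exp, Real.exp_zero,
        mul_zero, mul_one, zero_add, ← mul_assoc, e1, hδe, one_mul]
      have l1 := Real.log_le_sub_one_of_pos (show 0 < 1 - 2 * δ + 1 / M + 1 by linarith)
      have l2 := mul_le_mul_of_nonneg_left l1 (show 0 ≤ 1 - 2 * δ + 1 / M + 1 by linarith)
      have l3 : 0 ≤ 1 / M * (M - L) := mul_nonneg hMi0.le (by linarith)
      nlinarith
    have hD : dirichlet (P ε) ![1 - 2 * δ, δ, δ] (fun x => Real.exp (![0, M - L, M] x))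
        ![0, M - L, M] = (1 / M - δ / 2 - 1 / 2) * (M - L) + (1 / 2 - 1 / M / 2) * M := by
      simp only [dirichlet, sub_mulVec, one_mulVec, Pi.sub_apply]
      simp only [mulVec, dotProduct, P,
        Fin.sum_univ_three, cons_val_zero, cons_val_one, cons_val_two, of_apply, cons_val',
        cons_val_fin_one, Nat.succ_eq_add_one, Nat.reduceAdd, tail_cons, head_cons,
        Real.exp_zero, head_fin_const]
      linear_combination (M - L - M / 2) * e1 + (M / 2 - (M - L) / 2) * hδe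
    have hD1 : (1 / M - δ / 2 - 1 / 2) * (M - L) + (1 / 2 - 1 / M / 2) * M =
        1 / 2 + L / 2 - L / M - δ / 2 * (M - L) := by field_simp; ring
    have p1 : 0 ≤ L / M := by positivity
    have p2 : L / M ≤ 1 := by rw [div_le_one hM0]; linarith
    have p3 : 0 ≤ δ / 2 * (M - L) := mul_nonneg (by positivity) (by linarith)
    have p4 : δ / 2 * (M - L) ≤ 1 := by nlinarith
    have hL6 : 200 * |C| * L ^ 2 / 6 ≤ L ^ 3 / 6 := by nlinarith [sq_nonneg L]
    have hL7 : 100 * L ^ 2 / 6 ≤ L ^ 3 / 6 := by nlinarith [sq_nonneg L]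
    refine ⟨by linarith, ?_⟩
    rw [← mul_div_assoc, div_lt_one (by linarith), hD, hD1]
    have q : C * (6 * (L + K)) * (1 / 2 + L / 2 - L / M - δ / 2 * (M - L)) ≤
        |C| * (12 * L) * L := by
      refine (mul_le_mul_of_nonneg_right (mul_le_mul_of_nonneg_right (le_abs_self C) hT.le)
        (by linarith)).trans ?_
      have := abs_nonneg C
      exact mul_le_mul (mul_le_mul_of_nonneg_left (by linarith) this) (by linarith) (by linarith)
        (by positivity)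
    nlinarith [abs_nonneg C, sq_nonneg L]

end Pool.Agent.Results.MP_bada7b_pr.ThreeState
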